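import Pool.Agent.W728.LH.Stms

/-!
Project LH, part ALG: algebraicity by transcendence degree.
-/

set_option autoImplicit false

namespace Pool.Agent.W119.LH

open MvPolynomial

variable {P : Type} [Field P] {m : ℕ}

open Classical in
theorem ins {s : Finset (MvPolynomial (Fin m) P)}
    (hs : AlgebraicIndepOn P (id : MvPolynomial (Fin m) P → _) (s : Set (MvPolynomial (Fin m) P)))
    {C : Subalgebra P (MvPolynomial (Fin m) P)} (hsC : (s : Set (MvPolynomial (Fin m) P)) ⊆ C)
    {a : MvPolynomial (Fin m) P} (ha : Transcendental C a) :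
    a ∉ s ∧ AlgebraicIndepOn P (id : MvPolynomial (Fin m) P → _)
      ((insert a s : Finset (MvPolynomial (Fin m) P)) : Set (MvPolynomial (Fin m) P)) := by
  constructor
  · intro h
    exact ha (isAlgebraic_algebraMap (⟨a, hsC h⟩ : C))
  · rw [Finset.coe_insert]
    refine AlgebraicIndepOn.insert hs ?_
    rw [Set.image_id]
    exact Transcendental.of_tower_top_of_subalgebra_le (Algebra.adjoin_le hsC) ha

theorem card_le {s : Finset (MvPolynomial (Fin m) P)}
    (hs : AlgebraicIndepOn P (id : MvPolynomial (Fin m) P → _)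
      (s : Set (MvPolynomial (Fin m) P))) : s.card ≤ m := by
  have h1 := AlgebraicIndependent.cardinalMk_le_trdeg hs
  rw [MvPolynomial.trdeg_of_isDomain] at h1
  simpa using h1

open Classical in
theorem t_ALG : Pool.Agent.W728.LH.ALG_stmt := by
  intro P _ m x B hx hB h0 hT k hk g hg
  by_contra hcon
  push Not at hcon
  -- phase 1
  have ph1 : ∀ j, j < m → ∃ s : Finset (MvPolynomial (Fin m) P),
      (s : Set (MvPolynomial (Fin m) P)) ⊆ B j ∧ s.card = j + 1 ∧
      AlgebraicIndepOn P (id : MvPolynomial (Fin m) P → _)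
        (s : Set (MvPolynomial (Fin m) P)) := by
    intro j
    induction j with
    | zero =>
      intro hj
      refine ⟨{x 0}, ?_, by simp, ?_⟩
      · rw [Finset.coe_singleton, Set.singleton_subset_iff]
        exact hx 0 hj
      · rw [Finset.coe_singleton]
        exact algebraicIndependent_unique_type_iff.mpr h0
    | succ j ih =>
      intro hj
      obtain ⟨s, hs1, hs2, hs3⟩ := ih (by omega)
      obtain ⟨h1, h2⟩ := ins hs3 hs1 (hT j (by omega))
      refine ⟨insert (x (j + 1)) s, ?_, ?_, h2⟩
      · rw [Finset.coe_insert, Set.insert_subset_iff]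
        exact ⟨hx (j + 1) hj, hs1.trans (hB j (by omega))⟩
      · rw [Finset.card_insert_of_notMem h1, hs2]
  -- phase 2
  have ph2 : ∃ s : Finset (MvPolynomial (Fin m) P),
      (s : Set (MvPolynomial (Fin m) P)) ⊆ B (k + 1) ∧ s.card = k + 1 + 2 ∧
      AlgebraicIndepOn P (id : MvPolynomial (Fin m) P → _)
        (s : Set (MvPolynomial (Fin m) P)) := by
    obtain ⟨s, hs1, hs2, hs3⟩ := ph1 k (by omega)
    obtain ⟨h1, h2⟩ := ins hs3 hs1 (hT k hk)
    set s1 := insert (x (k + 1)) s with hs1'
    have hs1B : (s1 : Set (MvPolynomial (Fin m) P)) ⊆ B (k + 1) := by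
      rw [hs1', Finset.coe_insert, Set.insert_subset_iff]
      exact ⟨hx (k + 1) (by omega), hs1.trans (hB k (by omega))⟩
    -- the range of the evaluation at `x (k + 1)`
    set φ := Polynomial.eval₂RingHom (algebraMap (B k) (MvPolynomial (Fin m) P)) (x (k + 1))
      with hφ
    have hadj : ∀ c ∈ Algebra.adjoin P (s1 : Set (MvPolynomial (Fin m) P)), ∃ p, φ p = c := by
      intro c hc
      induction hc using Algebra.adjoin_induction with
      | mem y hy =>
        rw [hs1', Finset.coe_insert, Set.mem_insert_iff] at hy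
        rcases hy with rfl | hy
        · exact ⟨Polynomial.X, by simp [hφ]⟩
        · exact ⟨Polynomial.C ⟨y, hs1 hy⟩, by simp [hφ]⟩
      | algebraMap r =>
        refine ⟨Polynomial.C (algebraMap P (B k) r), ?_⟩
        simp [hφ]
      | add y z _ _ hy hz =>
        obtain ⟨p1, rfl⟩ := hy
        obtain ⟨p2, rfl⟩ := hz
        exact ⟨p1 + p2, map_add φ p1 p2⟩
      | mul y z _ _ hy hz =>
        obtain ⟨p1, rfl⟩ := hy
        obtain ⟨p2, rfl⟩ := hz
        exact ⟨p1 * p2, map_mul φ p1 p2⟩
    have hgT : Transcendental (Algebra.adjoin P (s1 : Set (MvPolynomial (Fin m) P))) g := by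
      rintro ⟨q, hq0, hq⟩
      have h3 : q.map (algebraMap _ (MvPolynomial (Fin m) P)) ∈ Polynomial.lifts φ := by
        rw [Polynomial.lifts_iff_coeff_lifts]
        intro n
        rw [Polynomial.coeff_map]
        exact hadj _ (q.coeff n).2
      obtain ⟨Q, hQ⟩ := (Polynomial.mem_lifts _).1 h3
      refine hcon Q ?_ ?_
      · rintro rfl
        rw [Polynomial.map_zero] at hQ
        apply hq0
        have hinj : Function.Injective (algebraMap
            (Algebra.adjoin P (s1 : Set (MvPolynomial (Fin m) P)))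
            (MvPolynomial (Fin m) P)) := Subtype.val_injective
        exact Polynomial.map_injective _ hinj (by rw [← hQ, Polynomial.map_zero])
      · rw [hQ, Polynomial.eval_map_algebraMap]
        exact hq
    obtain ⟨h3, h4⟩ := ins h2 Algebra.subset_adjoin hgT
    refine ⟨insert g s1, ?_, ?_, h4⟩
    · rw [Finset.coe_insert, Set.insert_subset_iff]
      exact ⟨hg, hs1B⟩
    · rw [Finset.card_insert_of_notMem h3, hs1', Finset.card_insert_of_notMem h1, hs2]
  -- phase 3
  have ph3 : ∀ j, k + 1 ≤ j → j < m → ∃ s : Finset (MvPolynomial (Fin m) P),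
      (s : Set (MvPolynomial (Fin m) P)) ⊆ B j ∧ s.card = j + 2 ∧
      AlgebraicIndepOn P (id : MvPolynomial (Fin m) P → _)
        (s : Set (MvPolynomial (Fin m) P)) := by
    intro j hj
    induction j, hj using Nat.le_induction with
    | base => intro _; exact ph2
    | succ j hj ih =>
      intro hjm
      obtain ⟨s, hs1, hs2, hs3⟩ := ih (by omega)
      obtain ⟨h1, h2⟩ := ins hs3 hs1 (hT j (by omega))
      refine ⟨insert (x (j + 1)) s, ?_, ?_, h2⟩
      · rw [Finset.coe_insert, Set.insert_subset_iff]
        exact ⟨hx (j + 1) hjm, hs1.trans (hB j (by omega))⟩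
      · rw [Finset.card_insert_of_notMem h1, hs2]
  obtain ⟨s, _, hs2, hs3⟩ := ph3 (m - 1) (by omega) (by omega)
  have := card_le hs3
  omega

end Pool.Agent.W119.LH
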